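import Pool.Agent.Y349.OC.MW

set_option autoImplicit false

namespace Pool.Agent.Y349.OC

open Filter Topology Finset Nat Pool.Agent.H244R2

/-- products of ratios -/
lemma ratio_mul {a b r K₁ K₂ : ℝ} (h1 : |a - 1| ≤ K₁ * r) (h2 : |b - 1| ≤ K₂ * r)
    (hr0 : 0 ≤ r) (hr1 : r ≤ 1) (hK1 : 0 ≤ K₁) (hK2 : 0 ≤ K₂) :
    |a * b - 1| ≤ (K₁ + K₂ + K₁ * K₂) * r := by
  have h3 : a * b - 1 = (a - 1) * (b - 1) + (a - 1) + (b - 1) := by ring
  rw [h3]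
  have h4 := abs_add_le ((a - 1) * (b - 1) + (a - 1)) (b - 1)
  have h5 := abs_add_le ((a - 1) * (b - 1)) (a - 1)
  have h6 : |(a - 1) * (b - 1)| ≤ K₁ * K₂ * r := by
    rw [abs_mul]
    calc |a - 1| * |b - 1| ≤ (K₁ * r) * (K₂ * r) := by gcongr
      _ = (K₁ * K₂ * r) * r := by ring
      _ ≤ (K₁ * K₂ * r) * 1 := by gcongr
      _ = _ := mul_one _
  linarith

/-- inverse of a ratio -/
lemma ratio_inv {a r K : ℝ} (h : |a - 1| ≤ K * r) (hs : K * r ≤ 1 / 2) :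
    |a⁻¹ - 1| ≤ (2 * K) * r := by
  have h1 : 1 / 2 ≤ a := by linarith [(abs_le.1 h).1]
  have h2 : a⁻¹ - 1 = -(a - 1) * a⁻¹ := by
    have : a ≠ 0 := by positivity
    field_simp
    ring
  rw [h2, abs_mul, abs_neg, abs_of_pos (by positivity : (0:ℝ) < a⁻¹)]
  have h3 : a⁻¹ ≤ 2 := by
    rw [inv_le_comm₀ (by linarith) (by norm_num)]
    linarith
  have h4 : 0 ≤ K * r := (abs_nonneg _).trans h
  calc |a - 1| * a⁻¹ ≤ (K * r) * 2 := by gcongr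
    _ = _ := by ring

lemma rpow_le_one_of {n : ℕ} (hn : 1 ≤ n) : ((n:ℝ)) ^ (-(1 / 10) : ℝ) ≤ 1 :=
  Real.rpow_le_one_of_one_le_of_nonpos (by exact_mod_cast hn) (by norm_num)

/-- from eventual bounds to all positive integers -/
lemma all_of_eventually {R : ℕ → ℝ} {K : ℝ}
    (h : ∀ᶠ n : ℕ in atTop, |R n - 1| ≤ K * (n:ℝ) ^ (-(1 / 10) : ℝ)) :
    ∃ C : ℝ, ∀ n : ℕ, 1 ≤ n → |R n - 1| ≤ C * (n:ℝ) ^ (-(1 / 10) : ℝ) := by
  obtain ⟨n₀, hn₀⟩ := eventually_atTop.1 h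
  refine ⟨|K| + ∑ i ∈ Finset.range n₀, |R i - 1| * (i:ℝ) ^ ((1 / 10) : ℝ), fun n hn => ?_⟩
  have hn0 : (0:ℝ) < n := by exact_mod_cast hn
  have hpos : 0 < (n:ℝ) ^ (-(1 / 10) : ℝ) := Real.rpow_pos_of_pos hn0 _
  have hs0 : 0 ≤ ∑ i ∈ Finset.range n₀, |R i - 1| * (i:ℝ) ^ ((1 / 10) : ℝ) :=
    Finset.sum_nonneg (fun i _ => by positivity)
  rcases le_or_gt n₀ n with h1 | h1
  · refine (hn₀ n h1).trans ?_
    apply mul_le_mul_of_nonneg_right _ hpos.le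
    linarith [le_abs_self K]
  · have h2 : |R n - 1| * (n:ℝ) ^ ((1 / 10) : ℝ) ≤
        ∑ i ∈ Finset.range n₀, |R i - 1| * (i:ℝ) ^ ((1 / 10) : ℝ) :=
      Finset.single_le_sum (f := fun i : ℕ => |R i - 1| * (i:ℝ) ^ ((1 / 10) : ℝ))
        (fun i _ => by positivity) (Finset.mem_range.2 h1)
    have h3 : (n:ℝ) ^ ((1 / 10) : ℝ) * (n:ℝ) ^ (-(1 / 10) : ℝ) = 1 := by
      rw [← Real.rpow_add hn0]; norm_num
    calc |R n - 1| = (|R n - 1| * (n:ℝ) ^ ((1 / 10) : ℝ)) * (n:ℝ) ^ (-(1 / 10) : ℝ) := by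
          rw [mul_assoc, h3, mul_one]
      _ ≤ (|K| + ∑ i ∈ Finset.range n₀, |R i - 1| * (i:ℝ) ^ ((1 / 10) : ℝ)) *
            (n:ℝ) ^ (-(1 / 10) : ℝ) := by
          apply mul_le_mul_of_nonneg_right _ hpos.le
          linarith [abs_nonneg K]

lemma tt_sq (n : ℕ) : tt n ^ 2 = (n:ℝ) ^ ((1 / 10) : ℝ) := by
  unfold tt
  rw [← Real.rpow_natCast, ← Real.rpow_mul (Nat.cast_nonneg n)]
  norm_num

lemma pow_exp_le {n : ℕ} (hn : 1 ≤ n) :
    (n:ℝ) ^ 2 * Real.exp (-(2 * n)) ≤ 6 * (n:ℝ) ^ (-(1 / 10) : ℝ) := by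
  have hn0 : (0:ℝ) < n := by exact_mod_cast hn
  have hn1 : (1:ℝ) ≤ n := by exact_mod_cast hn
  have h1 : (n:ℝ) ^ 3 / 6 ≤ Real.exp n := by
    have := Real.pow_div_factorial_le_exp (n:ℝ) hn0.le 3
    norm_num [Nat.factorial] at this
    exact this
  have h2 : (n:ℝ) ^ 2 * Real.exp (-(2 * n)) ≤ 6 / n := by
    have h3 : Real.exp (-(2 * (n:ℝ))) ≤ Real.exp (-(n:ℝ)) := Real.exp_le_exp.2 (by linarith)
    have h4 : Real.exp (-(n:ℝ)) ≤ 6 / (n:ℝ) ^ 3 := by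
      rw [Real.exp_neg, inv_le_comm₀ (Real.exp_pos _) (by positivity), inv_div]
      exact h1
    calc (n:ℝ) ^ 2 * Real.exp (-(2 * (n:ℝ))) ≤ (n:ℝ) ^ 2 * (6 / (n:ℝ) ^ 3) := by
          gcongr
          exact h3.trans h4
      _ = 6 / (n:ℝ) := by field_simp
  refine h2.trans ?_
  rw [div_eq_mul_inv]
  apply mul_le_mul_of_nonneg_left _ (by norm_num)
  rw [← Real.rpow_neg_one]
  exact Real.rpow_le_rpow_of_exponent_le hn1 (by norm_num)

/-- orbits of the wreath product against the main sum, with a rate -/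
theorem wreath_rate {Ω : Type} [DecidableEq Ω] [Infinite Ω] : ∃ K : ℝ, 0 ≤ K ∧
    ∀ᶠ n : ℕ in atTop, |(numOrbits (wreathPower Ω) (Ω × Ω) n : ℝ) /
      (bSum n / Real.exp 1 ^ 2 / 2) - 1| ≤ K * (n:ℝ) ^ (-(1 / 10) : ℝ) := by
  refine ⟨Real.exp 1 ^ 2 * (8 * (9 * Real.exp 2 ^ 2)) +
    (Real.exp 1 ^ 2 * Real.exp 1 ^ 2 * 3 + Real.exp 1 ^ 2) * 6, by positivity, ?_⟩
  filter_upwards [bSum_pos_eventually, wreath_bounds, eventually_ge_atTop 1] with n hpos hb hn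
  have hn0 : (0:ℝ) < n := by exact_mod_cast hn
  rw [numOrbitsW_eq_fin Ω n n le_rfl]
  have hb0 : 0 < bSum n / Real.exp 1 ^ 2 / 2 := by positivity
  have herr : errB n ≤ (Real.exp 1 ^ 2 * (8 * (9 * Real.exp 2 ^ 2)) +
    (Real.exp 1 ^ 2 * Real.exp 1 ^ 2 * 3 + Real.exp 1 ^ 2) * 6) * (n:ℝ) ^ (-(1 / 10) : ℝ) := by
    unfold errB rhoB
    have h1 : (Real.exp 2 / (tt n / 3)) ^ 2 = 9 * Real.exp 2 ^ 2 * (n:ℝ) ^ (-(1 / 10) : ℝ) := by
      rw [Real.rpow_neg hn0.le, ← tt_sq]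
      have : tt n ≠ 0 := by unfold tt; positivity
      field_simp
      norm_num
    rw [h1, add_mul]
    have h2 := pow_exp_le hn
    have h3 : (Real.exp 1 ^ 2 * Real.exp 1 ^ 2 * 3 + Real.exp 1 ^ 2) *
        ((n:ℝ) ^ 2 * Real.exp (-(2 * n))) ≤
        (Real.exp 1 ^ 2 * Real.exp 1 ^ 2 * 3 + Real.exp 1 ^ 2) *
          (6 * (n:ℝ) ^ (-(1 / 10) : ℝ)) := by gcongr
    linarith
  rw [abs_le]
  have herr0 : 0 ≤ errB n := by unfold errB; positivity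
  constructor
  · have : 1 ≤ (numOrbits (wreathPower (Fin n)) (Fin n × Fin n) n : ℝ) /
        (bSum n / Real.exp 1 ^ 2 / 2) := by
      rw [le_div_iff₀ hb0, one_mul]; linarith [hb.1]
    linarith
  · have : (numOrbits (wreathPower (Fin n)) (Fin n × Fin n) n : ℝ) /
        (bSum n / Real.exp 1 ^ 2 / 2) ≤ 1 + errB n := by
      rw [div_le_iff₀ hb0]
      have := hb.2
      linarith
    linarith

/-- orbits on pairs against the main sum, with a rate -/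
theorem graph_rate {Ω : Type} [DecidableEq Ω] [Infinite Ω] : ∃ K : ℝ, 0 ≤ K ∧
    ∀ᶠ n : ℕ in atTop, |(numOrbits (Equiv.Perm Ω) (Set.powersetCard Ω 2) n : ℝ) /
      (gSum n / Real.exp 1) - 1| ≤ K * (n:ℝ) ^ (-(1 / 10) : ℝ) := by
  refine ⟨Real.exp 1 * (2 * (9 * Real.exp 2 ^ 2) + 2 * Real.exp 1 * 6), by positivity, ?_⟩
  filter_upwards [gSum_pos_eventually, CC_le_Yb, sum_Yb_le, eventually_ge_atTop 1]
    with n hpos hCC hYb hn
  have hn0 : (0:ℝ) < n := by exact_mod_cast hn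
  have hn1 : (1:ℝ) ≤ n := by exact_mod_cast hn
  rw [numOrbits_eq_fin n (2 * n) le_rfl]
  have hb0 : 0 < gSum n / Real.exp 1 := by positivity
  have h2 := burnside_fin (V := Fin (2 * n)) n
  rw [Fintype.card_fin] at h2
  have h3 : ∑ σ : Equiv.Perm (Fin (2 * n)),
      (((GG (univ : Finset (Fin (2 * n))) n).filter (fun E => act σ E = E)).card : ℝ) =
      (numOrbits (Equiv.Perm (Fin (2 * n))) (Set.powersetCard (Fin (2 * n)) 2) n : ℝ) *
        ((2 * n)! : ℝ) := by exact_mod_cast h2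
  have hlow : gSum n / Real.exp 1 ≤
      (numOrbits (Equiv.Perm (Fin (2 * n))) (Set.powersetCard (Fin (2 * n)) 2) n : ℝ) := by
    have h1 := fixed_pairs_ge (V := Fin (2 * n)) n (by rw [Fintype.card_fin])
    rw [Fintype.card_fin, h3, mul_comm] at h1
    exact le_of_mul_le_mul_right h1 (by positivity)
  have hup : (numOrbits (Equiv.Perm (Fin (2 * n))) (Set.powersetCard (Fin (2 * n)) 2) n : ℝ) ≤
      gSum n / Real.exp 1 + errT n * gSum n := by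
    have h1 := fixed_pairs_le (V := Fin (2 * n)) n (by rw [Fintype.card_fin]) (Yb n) (Yb_nonneg n)
      (fun τ _ => hCC τ)
    rw [Fintype.card_fin, h3, mul_comm] at h1
    have h4 := le_of_mul_le_mul_left h1 (by positivity)
    linarith
  have herr : errT n ≤ (2 * (9 * Real.exp 2 ^ 2) + 2 * Real.exp 1 * 6) *
      (n:ℝ) ^ (-(1 / 10) : ℝ) := by
    unfold errT
    have h1 : (Real.exp 2 / (tt n / 3)) ^ 2 = 9 * Real.exp 2 ^ 2 * (n:ℝ) ^ (-(1 / 10) : ℝ) := by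
      rw [Real.rpow_neg hn0.le, ← tt_sq]
      have : tt n ≠ 0 := by unfold tt; positivity
      field_simp
      norm_num
    rw [h1]
    have h2 := pow_exp_le hn
    have h3 : (n:ℝ) * Real.exp (-(2 * n)) ≤ (n:ℝ) ^ 2 * Real.exp (-(2 * n)) := by
      gcongr
      nlinarith
    have h4 : 2 * Real.exp 1 * (n * Real.exp (-(2 * n))) ≤
        2 * Real.exp 1 * (6 * (n:ℝ) ^ (-(1 / 10) : ℝ)) :=
      mul_le_mul_of_nonneg_left (h3.trans h2) (by positivity)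
    linarith
  rw [abs_le]
  have herr0 : 0 ≤ errT n := by unfold errT; positivity
  have hpos10 : 0 ≤ (n:ℝ) ^ (-(1 / 10) : ℝ) := by positivity
  constructor
  · have h5 : 1 ≤ (numOrbits (Equiv.Perm (Fin (2 * n))) (Set.powersetCard (Fin (2 * n)) 2) n : ℝ) /
        (gSum n / Real.exp 1) := by
      rw [le_div_iff₀ hb0, one_mul]; exact hlow
    have h6 : 0 ≤ Real.exp 1 * (2 * (9 * Real.exp 2 ^ 2) + 2 * Real.exp 1 * 6) *
        (n:ℝ) ^ (-(1 / 10) : ℝ) := by positivity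
    linarith
  · have h5 : (numOrbits (Equiv.Perm (Fin (2 * n))) (Set.powersetCard (Fin (2 * n)) 2) n : ℝ) /
        (gSum n / Real.exp 1) ≤ 1 + Real.exp 1 * errT n := by
      rw [div_le_iff₀ hb0]
      have he : Real.exp 1 ≠ 0 := (Real.exp_pos 1).ne'
      calc _ ≤ gSum n / Real.exp 1 + errT n * gSum n := hup
        _ = (1 + Real.exp 1 * errT n) * (gSum n / Real.exp 1) := by field_simp
    have h6 : Real.exp 1 * errT n ≤ Real.exp 1 * ((2 * (9 * Real.exp 2 ^ 2) +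
        2 * Real.exp 1 * 6) * (n:ℝ) ^ (-(1 / 10) : ℝ)) := by gcongr
    linarith

end Pool.Agent.Y349.OC
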