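import Pool.Agent.Y349.OC.Fin

set_option autoImplicit false

namespace Pool.Agent.Y349.OC

open Filter Topology Finset Nat Pool.Agent.H244R2

/-- main term for the product action: Bell number form -/
noncomputable def gW (n : ℕ) (w : ℝ) : ℝ :=
  (Nat.bell n : ℝ) ^ 2 / (2 * (n ! : ℝ)) * Real.exp (-(w ^ 2 / 2))

/-- main term for the product action: elementary form -/
noncomputable def eW (n : ℕ) (w : ℝ) : ℝ :=
  Real.exp (2 * n * (w - 1 + 1 / w) - w ^ 2 / 2 - 2) / (2 * (w + 1) * (n ! : ℝ))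

/-- main term for the action on pairs: Bell number form -/
noncomputable def gP (n : ℕ) (w : ℝ) : ℝ :=
  (Nat.bell (2 * n) : ℝ) / (2 ^ n * (n ! : ℝ)) * Real.exp (-(w / 2) - w ^ 2 / 4)

/-- main term for the action on pairs: elementary form -/
noncomputable def eP (n : ℕ) (w : ℝ) : ℝ :=
  Real.exp (2 * n * (w - 1 + 1 / w) - w / 2 - w ^ 2 / 4 - 1) /
    (2 ^ n * (n ! : ℝ) * Real.sqrt (w + 1))

lemma rate_tendsto (K : ℝ) : Tendsto (fun n : ℕ => K * (n:ℝ) ^ (-(1 / 10) : ℝ)) atTop (𝓝 0) := by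
  have h1 : Tendsto (fun n : ℕ => (n:ℝ) ^ (-(1 / 10) : ℝ)) atTop (𝓝 0) :=
    (tendsto_rpow_neg_atTop (show (0:ℝ) < 1 / 10 by norm_num)).comp tendsto_natCast_atTop_atTop
  simpa using h1.const_mul K

theorem wreath_bell {Ω : Type} [DecidableEq Ω] [Infinite Ω] : ∃ K : ℝ, 0 ≤ K ∧
    ∀ᶠ n : ℕ in atTop, |(numOrbits (wreathPower Ω) (Ω × Ω) n : ℝ) / gW n (lamW n) - 1| ≤
      K * (n:ℝ) ^ (-(1 / 10) : ℝ) := by
  obtain ⟨K, hK0, hK⟩ := wreath_rate (Ω := Ω)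
  refine ⟨K + (2 * 60 + 1) + K * (2 * 60 + 1), by positivity, ?_⟩
  filter_upwards [hK, bSum_rate, bSum_pos_eventually, eventually_ge_atTop 1] with n h1 h2 hpos hn
  have h3 := ratio_mul h1 h2 (by positivity) (rpow_le_one_of hn) hK0 (by norm_num)
  have h4 : (numOrbits (wreathPower Ω) (Ω × Ω) n : ℝ) / gW n (lamW n) =
      (numOrbits (wreathPower Ω) (Ω × Ω) n : ℝ) / (bSum n / Real.exp 1 ^ 2 / 2) *
        (bSum n / (Real.exp 1 ^ 2 * ((Nat.bell n : ℝ) ^ 2 / (n ! : ℝ) *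
      Real.exp (-(lamW (n : ℝ) ^ 2 / 2))))) := by
    have hb : (Nat.bell n : ℝ) ≠ 0 := by exact_mod_cast (bell_pos _).ne'
    have hf : (n ! : ℝ) ≠ 0 := by positivity
    have he : Real.exp 1 ≠ 0 := (Real.exp_pos 1).ne'
    have hc : Real.exp (-(lamW (n : ℝ) ^ 2 / 2)) ≠ 0 := (Real.exp_pos _).ne'
    unfold gW
    field_simp
  rw [h4]
  exact h3

theorem graph_bell {Ω : Type} [DecidableEq Ω] [Infinite Ω] : ∃ K : ℝ, 0 ≤ K ∧
    ∀ᶠ n : ℕ in atTop, |(numOrbits (Equiv.Perm Ω) (Set.powersetCard Ω 2) n : ℝ) /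
      gP n (lamW ((2 * n : ℕ) : ℝ)) - 1| ≤ K * (n:ℝ) ^ (-(1 / 10) : ℝ) := by
  obtain ⟨K, hK0, hK⟩ := graph_rate (Ω := Ω)
  refine ⟨K + (2 * 50 + 1) + K * (2 * 50 + 1), by positivity, ?_⟩
  filter_upwards [hK, gSum_rate, gSum_pos_eventually, eventually_ge_atTop 1] with n h1 h2 hpos hn
  have hn0 : (0:ℝ) < n := by exact_mod_cast hn
  have h2' : ((2 * n : ℕ) : ℝ) ^ (-(1 / 10) : ℝ) ≤ (n:ℝ) ^ (-(1 / 10) : ℝ) := by
    apply Real.rpow_le_rpow_of_nonpos hn0 _ (by norm_num)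
    push_cast
    linarith
  have h2'' := h2.trans (mul_le_mul_of_nonneg_left h2' (by norm_num))
  have h3 := ratio_mul h1 h2'' (by positivity) (rpow_le_one_of hn) hK0 (by norm_num)
  have h4 : (numOrbits (Equiv.Perm Ω) (Set.powersetCard Ω 2) n : ℝ) /
      gP n (lamW ((2 * n : ℕ) : ℝ)) =
      (numOrbits (Equiv.Perm Ω) (Set.powersetCard Ω 2) n : ℝ) / (gSum n / Real.exp 1) *
        (gSum n / (Real.exp 1 * ((Nat.bell (2 * n) : ℝ) / (2 ^ n * (n ! : ℝ)) *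
      Real.exp (-(lamW ((2 * n : ℕ) : ℝ) / 2) - lamW ((2 * n : ℕ) : ℝ) ^ 2 / 4)))) := by
    have hb : (Nat.bell (2 * n) : ℝ) ≠ 0 := by exact_mod_cast (bell_pos _).ne'
    have hf : (n ! : ℝ) ≠ 0 := by positivity
    have he : Real.exp 1 ≠ 0 := (Real.exp_pos 1).ne'
    have hc : Real.exp (-(lamW ((2 * n : ℕ) : ℝ) / 2) - lamW ((2 * n : ℕ) : ℝ) ^ 2 / 4) ≠ 0 :=
      (Real.exp_pos _).ne'
    unfold gP
    field_simp
  rw [h4]
  exact h3

lemma exp_lam {x : ℝ} (hx : 0 < x) : Real.exp (lamW x) = x * (1 / lamW x) := by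
  have h := lamW_eq hx.le
  have hw : lamW x ≠ 0 := by
    intro h0
    rw [h0, zero_mul] at h
    exact hx.ne h
  field_simp
  linarith

theorem wreath_elem {Ω : Type} [DecidableEq Ω] [Infinite Ω] : ∃ K : ℝ, 0 ≤ K ∧
    ∀ᶠ n : ℕ in atTop, |(numOrbits (wreathPower Ω) (Ω × Ω) n : ℝ) / eW n (lamW n) - 1| ≤
      K * (n:ℝ) ^ (-(1 / 10) : ℝ) := by
  obtain ⟨K, hK0, hK⟩ := wreath_bell (Ω := Ω)
  refine ⟨K + (8 + 8 + 8 * 8) + K * (8 + 8 + 8 * 8), by positivity, ?_⟩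
  filter_upwards [hK, moser_wyman, eventually_ge_atTop 1] with n h1 h2 hn
  have hn0 : (0:ℝ) < n := by exact_mod_cast hn
  have h3 := ratio_mul h2 h2 (by positivity) (rpow_le_one_of hn) (by norm_num) (by norm_num)
  have h4 := ratio_mul h1 h3 (by positivity) (rpow_le_one_of hn) hK0 (by norm_num)
  set w := lamW (n : ℝ) with hw
  have hw0 : 0 ≤ w := lamW_nonneg _
  have h5 : (numOrbits (wreathPower Ω) (Ω × Ω) n : ℝ) / eW n w =
      (numOrbits (wreathPower Ω) (Ω × Ω) n : ℝ) / gW n w *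
        (Real.exp 1 * (Nat.bell n : ℝ) / mwTerm n w * (Real.exp 1 * (Nat.bell n : ℝ) / mwTerm n w)) := by
    have hb : (Nat.bell n : ℝ) ≠ 0 := by exact_mod_cast (bell_pos _).ne'
    have hf : (n ! : ℝ) ≠ 0 := by positivity
    have h6 : eW n w = Real.exp (-(w ^ 2 / 2)) * (mwTerm n w * mwTerm n w) /
        (Real.exp 1 ^ 2 * (2 * (n ! : ℝ))) := by
      unfold eW mwTerm
      have h7 : Real.exp (2 * n * (w - 1 + 1 / w) - w ^ 2 / 2 - 2) =
          Real.exp (-(w ^ 2 / 2)) * (Real.exp (n * w - n + Real.exp w) *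
            Real.exp (n * w - n + Real.exp w)) / Real.exp 1 ^ 2 := by
        rw [← Real.exp_nat_mul, ← Real.exp_add, ← Real.exp_add, ← Real.exp_sub]
        congr 1
        rw [hw, exp_lam hn0]
        push_cast
        ring
      have h8 : Real.sqrt (w + 1) * Real.sqrt (w + 1) = w + 1 :=
        Real.mul_self_sqrt (by linarith)
      rw [h7, _root_.div_mul_div_comm, h8]
      have h9 : w + 1 ≠ 0 := by linarith
      field_simp
    rw [h6]
    unfold gW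
    have hT := (mwTerm_pos (N := n) hw0).ne'
    have he : Real.exp 1 ≠ 0 := (Real.exp_pos 1).ne'
    have hc : Real.exp (-(w ^ 2 / 2)) ≠ 0 := (Real.exp_pos _).ne'
    field_simp
  rw [h5]
  exact h4

theorem graph_elem {Ω : Type} [DecidableEq Ω] [Infinite Ω] : ∃ K : ℝ, 0 ≤ K ∧
    ∀ᶠ n : ℕ in atTop, |(numOrbits (Equiv.Perm Ω) (Set.powersetCard Ω 2) n : ℝ) /
      eP n (lamW ((2 * n : ℕ) : ℝ)) - 1| ≤ K * (n:ℝ) ^ (-(1 / 10) : ℝ) := by
  obtain ⟨K, hK0, hK⟩ := graph_bell (Ω := Ω)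
  refine ⟨K + 8 + K * 8, by positivity, ?_⟩
  have h2n : Tendsto (fun n : ℕ => 2 * n) atTop atTop := tendsto_id.const_mul_atTop' (by norm_num)
  filter_upwards [hK, h2n.eventually moser_wyman, eventually_ge_atTop 1] with n h1 h2 hn
  have hn0 : (0:ℝ) < n := by exact_mod_cast hn
  have h2' : ((2 * n : ℕ) : ℝ) ^ (-(1 / 10) : ℝ) ≤ (n:ℝ) ^ (-(1 / 10) : ℝ) := by
    apply Real.rpow_le_rpow_of_nonpos hn0 _ (by norm_num)
    push_cast
    linarith
  have h3 := h2.trans (mul_le_mul_of_nonneg_left h2' (by norm_num))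
  have h4 := ratio_mul h1 h3 (by positivity) (rpow_le_one_of hn) hK0 (by norm_num)
  have h2n0 : (0:ℝ) < ((2 * n : ℕ) : ℝ) := by push_cast; linarith
  set w := lamW ((2 * n : ℕ) : ℝ) with hw
  have hw0 : 0 ≤ w := lamW_nonneg _
  have h5 : (numOrbits (Equiv.Perm Ω) (Set.powersetCard Ω 2) n : ℝ) / eP n w =
      (numOrbits (Equiv.Perm Ω) (Set.powersetCard Ω 2) n : ℝ) / gP n w *
        (Real.exp 1 * (Nat.bell (2 * n) : ℝ) / mwTerm (2 * n) w) := by
    have hb : (Nat.bell (2 * n) : ℝ) ≠ 0 := by exact_mod_cast (bell_pos _).ne'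
    have hf : (n ! : ℝ) ≠ 0 := by positivity
    have h6 : eP n w = Real.exp (-(w / 2) - w ^ 2 / 4) * mwTerm (2 * n) w /
        (Real.exp 1 * (2 ^ n * (n ! : ℝ))) := by
      unfold eP mwTerm
      have h7 : Real.exp (2 * n * (w - 1 + 1 / w) - w / 2 - w ^ 2 / 4 - 1) =
          Real.exp (-(w / 2) - w ^ 2 / 4) * Real.exp (((2 * n : ℕ) : ℝ) * w - ((2 * n : ℕ) : ℝ) +
            Real.exp w) / Real.exp 1 := by
        rw [← Real.exp_add, ← Real.exp_sub]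
        congr 1
        rw [hw, exp_lam h2n0]
        push_cast
        ring
      rw [h7]
      have h9 : Real.sqrt (w + 1) ≠ 0 := by
        have : 0 < w + 1 := by linarith
        positivity
      field_simp
    rw [h6]
    unfold gP
    have hT := (mwTerm_pos (N := 2 * n) hw0).ne'
    have he : Real.exp 1 ≠ 0 := (Real.exp_pos 1).ne'
    have hc : Real.exp (-(w / 2) - w ^ 2 / 4) ≠ 0 := (Real.exp_pos _).ne'
    field_simp
  rw [h5]
  exact h4

end Pool.Agent.Y349.OC
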