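import Mathlib

set_option autoImplicit false

namespace Pool.Agent.Y349.OC

open Filter Topology

/-- shifted Gaussian sum -/
noncomputable def GS (a c : ℝ) : ℝ := ∑' m : ℤ, Real.exp (-a * ((m:ℝ) - c) ^ 2)

lemma term_eq {a : ℝ} (ha : 0 < a) (c : ℝ) (m : ℤ) :
    ((Real.exp (-a * ((m:ℝ) - c) ^ 2) : ℝ) : ℂ) =
      Complex.exp (-a * c ^ 2) *
        jacobiTheta₂_term m (-((a * c / Real.pi : ℝ) : ℂ) * Complex.I)
          (((a / Real.pi : ℝ) : ℂ) * Complex.I) := by
  have hpi : (Real.pi : ℂ) ≠ 0 := by exact_mod_cast Real.pi_ne_zero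
  unfold jacobiTheta₂_term
  rw [← Complex.exp_add]
  push_cast
  congr 1
  have hI := Complex.I_sq
  field_simp
  linear_combination (2 * c * (a:ℂ) * m - (a : ℂ) * m ^ 2) * hI

lemma summable_gs {a : ℝ} (ha : 0 < a) (c : ℝ) :
    Summable (fun m : ℤ => Real.exp (-a * ((m:ℝ) - c) ^ 2)) := by
  have h1 : Summable (fun m : ℤ => jacobiTheta₂_term m (-((a * c / Real.pi : ℝ) : ℂ) * Complex.I)
          (((a / Real.pi : ℝ) : ℂ) * Complex.I)) := by
    rw [summable_jacobiTheta₂_term_iff]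
    simp only [Complex.mul_im, Complex.ofReal_re, Complex.I_im, mul_one, Complex.ofReal_im,
      Complex.I_re, mul_zero, add_zero]
    have := Real.pi_pos
    positivity
  have h2 := h1.mul_left (Complex.exp (-a * c ^ 2))
  have h3 : Summable (fun m : ℤ => ((Real.exp (-a * ((m:ℝ) - c) ^ 2) : ℝ) : ℂ)) :=
    h2.congr (fun m => (term_eq ha c m).symm)
  exact Complex.summable_ofReal.1 h3

lemma GS_eq {a : ℝ} (ha : 0 < a) (c : ℝ) :
    ((GS a c : ℝ) : ℂ) = ((Real.sqrt (Real.pi / a) : ℝ) : ℂ) *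
      jacobiTheta₂ (-(c : ℂ)) (((Real.pi / a : ℝ) : ℂ) * Complex.I) := by
  have hpi : (Real.pi : ℂ) ≠ 0 := by exact_mod_cast Real.pi_ne_zero
  have hac : (a : ℂ) ≠ 0 := by exact_mod_cast ha.ne'
  have hpos := Real.pi_pos
  unfold GS
  rw [Complex.ofReal_tsum]
  rw [tsum_congr (term_eq ha c), tsum_mul_left]
  have h1 : ∑' m : ℤ, jacobiTheta₂_term m (-((a * c / Real.pi : ℝ) : ℂ) * Complex.I)
          (((a / Real.pi : ℝ) : ℂ) * Complex.I) =
      jacobiTheta₂ (-((a * c / Real.pi : ℝ) : ℂ) * Complex.I)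
          (((a / Real.pi : ℝ) : ℂ) * Complex.I) := rfl
  rw [h1, jacobiTheta₂_functional_equation]
  have hI := Complex.I_sq
  have h2 : -((a * c / Real.pi : ℝ) : ℂ) * Complex.I / (((a / Real.pi : ℝ) : ℂ) * Complex.I) =
      -(c : ℂ) := by
    push_cast
    field_simp
  have h3 : -1 / (((a / Real.pi : ℝ) : ℂ) * Complex.I) = ((Real.pi / a : ℝ) : ℂ) * Complex.I := by
    push_cast
    field_simp
    rw [hI]
  have h4 : -Complex.I * (((a / Real.pi : ℝ) : ℂ) * Complex.I) = ((a / Real.pi : ℝ) : ℂ) := by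
    linear_combination (-((a / Real.pi : ℝ) : ℂ)) * hI
  have h5 : -Real.pi * Complex.I * (-((a * c / Real.pi : ℝ) : ℂ) * Complex.I) ^ 2 /
      (((a / Real.pi : ℝ) : ℂ) * Complex.I) = a * c ^ 2 := by
    push_cast
    field_simp
    rw [hI]
    ring
  rw [h2, h3, h4, h5]
  have h6 : ((a / Real.pi : ℝ) : ℂ) ^ (1 / 2 : ℂ) = ((Real.sqrt (a / Real.pi) : ℝ) : ℂ) := by
    rw [Real.sqrt_eq_rpow, Complex.ofReal_cpow (by positivity)]
    norm_num
  rw [h6]
  have h7 : (1 : ℂ) / ((Real.sqrt (a / Real.pi) : ℝ) : ℂ) = ((Real.sqrt (Real.pi / a) : ℝ) : ℂ) := by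
    rw [← Complex.ofReal_one, ← Complex.ofReal_div]
    congr 1
    rw [one_div, ← Real.sqrt_inv, inv_div]
  rw [h7]
  have h8 : Complex.exp (-a * c ^ 2) * Complex.exp (a * c ^ 2) = 1 := by
    rw [← Complex.exp_add]; simp
  calc _ = (Complex.exp (-a * c ^ 2) * Complex.exp (a * c ^ 2)) *
        (((Real.sqrt (Real.pi / a) : ℝ) : ℂ) *
      jacobiTheta₂ (-(c : ℂ)) (((Real.pi / a : ℝ) : ℂ) * Complex.I)) := by ring
    _ = _ := by rw [h8, one_mul]

lemma theta_shift {T : ℝ} (hT : 0 < T) (c : ℝ) :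
    ‖jacobiTheta₂ (-(c : ℂ)) ((T : ℂ) * Complex.I) - 1‖ ≤
      2 / (1 - Real.exp (-Real.pi * T)) * Real.exp (-Real.pi * T) := by
  have him : ((T : ℂ) * Complex.I).im = T := by simp
  have hs : ∀ z : ℂ, Summable (fun m : ℤ => jacobiTheta₂_term m z ((T : ℂ) * Complex.I)) := by
    intro z
    rw [summable_jacobiTheta₂_term_iff, him]
    exact hT
  have hnorm : ∀ m : ℤ, ‖jacobiTheta₂_term m (-(c : ℂ)) ((T : ℂ) * Complex.I)‖ =
      Real.exp (-Real.pi * m ^ 2 * T) := by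
    intro m
    rw [norm_jacobiTheta₂_term, him]
    simp
  have hterm0 : ∀ m : ℤ, jacobiTheta₂_term m 0 ((T : ℂ) * Complex.I) =
      ((Real.exp (-Real.pi * m ^ 2 * T) : ℝ) : ℂ) := by
    intro m
    unfold jacobiTheta₂_term
    push_cast
    congr 1
    have hI := Complex.I_sq
    linear_combination (Real.pi * (m:ℂ) ^ 2 * T) * hI
  have hsr : Summable (fun m : ℤ => Real.exp (-Real.pi * m ^ 2 * T)) := by
    have := (hs (-(c : ℂ))).norm
    exact this.congr hnorm
  have hsum0 : ∀ z : ℂ, jacobiTheta₂ z ((T : ℂ) * Complex.I) - 1 =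
      ∑' m : ℤ, (if m = 0 then 0 else jacobiTheta₂_term m z ((T : ℂ) * Complex.I)) := by
    intro z
    have h1 := (hs z).tsum_eq_add_tsum_ite 0
    have h2 : jacobiTheta₂_term 0 z ((T : ℂ) * Complex.I) = 1 := by
      simp [jacobiTheta₂_term]
    rw [h2] at h1
    have h3 : jacobiTheta₂ z ((T : ℂ) * Complex.I) =
      ∑' m : ℤ, jacobiTheta₂_term m z ((T : ℂ) * Complex.I) := rfl
    rw [h3, h1]
    ring
  have hsr' : Summable (fun m : ℤ => if m = 0 then 0 else Real.exp (-Real.pi * m ^ 2 * T)) := by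
    refine Summable.of_nonneg_of_le (fun m => ?_) (fun m => ?_) hsr
    · split_ifs
      · exact le_rfl
      · exact (Real.exp_pos _).le
    · split_ifs
      · exact (Real.exp_pos _).le
      · exact le_rfl
  have hle : ‖jacobiTheta₂ (-(c : ℂ)) ((T : ℂ) * Complex.I) - 1‖ ≤
      ∑' m : ℤ, (if m = 0 then 0 else Real.exp (-Real.pi * m ^ 2 * T)) := by
    rw [hsum0]
    have hn : ∀ m : ℤ, ‖(if m = 0 then (0:ℂ) else jacobiTheta₂_term m (-(c : ℂ)) ((T : ℂ) * Complex.I))‖ =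
        (if m = 0 then 0 else Real.exp (-Real.pi * m ^ 2 * T)) := by
      intro m
      split_ifs
      · simp
      · exact hnorm m
    have h4 : Summable (fun m : ℤ => ‖(if m = 0 then (0:ℂ) else jacobiTheta₂_term m (-(c : ℂ)) ((T : ℂ) * Complex.I))‖) :=
      hsr'.congr (fun m => (hn m).symm)
    refine (norm_tsum_le_tsum_norm h4).trans ?_
    exact (tsum_congr hn).le
  refine hle.trans ?_
  have h5 : ((∑' m : ℤ, (if m = 0 then 0 else Real.exp (-Real.pi * m ^ 2 * T)) : ℝ) : ℂ) =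
      jacobiTheta ((T : ℂ) * Complex.I) - 1 := by
    rw [jacobiTheta_eq_jacobiTheta₂, hsum0, Complex.ofReal_tsum]
    apply tsum_congr
    intro m
    split_ifs
    · simp
    · rw [hterm0]
  have h6 : ∑' m : ℤ, (if m = 0 then 0 else Real.exp (-Real.pi * m ^ 2 * T)) =
      ‖jacobiTheta ((T : ℂ) * Complex.I) - 1‖ := by
    rw [← h5, Complex.norm_real, Real.norm_of_nonneg]
    apply tsum_nonneg
    intro m
    split_ifs
    · exact le_rfl
    · exact (Real.exp_pos _).le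
  rw [h6]
  have h7 := norm_jacobiTheta_sub_one_le (τ := (T : ℂ) * Complex.I) (by rw [him]; exact hT)
  rw [him] at h7
  exact h7

/-- the shifted Gaussian sum is close to the Gaussian integral -/
theorem GS_bound {a : ℝ} (ha : 0 < a) (ha1 : a ≤ 1) (c : ℝ) :
    |GS a c - Real.sqrt (Real.pi / a)| ≤ Real.sqrt (Real.pi / a) * (4 * a) := by
  have hpi := Real.pi_gt_three
  have hpos := Real.pi_pos
  have h1 := GS_eq ha c
  have h2 := theta_shift (T := Real.pi / a) (by positivity) c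
  set q := Real.exp (-Real.pi * (Real.pi / a)) with hq
  have hq0 : 0 < q := Real.exp_pos _
  have hqa : q ≤ a / 9 := by
    have h3 : Real.pi * (Real.pi / a) + 1 ≤ Real.exp (Real.pi * (Real.pi / a)) :=
      Real.add_one_le_exp _
    have h4 : 9 / a ≤ Real.pi * (Real.pi / a) := by
      rw [← mul_div_assoc]
      apply div_le_div_of_nonneg_right _ ha.le
      nlinarith
    rw [hq, neg_mul, Real.exp_neg, inv_le_comm₀ (Real.exp_pos _) (by positivity), inv_div]
    linarith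
  have hq1 : q ≤ 1 / 9 := by linarith
  have h5 : 2 / (1 - q) * q ≤ 4 * a := by
    rw [div_mul_eq_mul_div, div_le_iff₀ (by linarith)]
    nlinarith
  have h6 : ((GS a c - Real.sqrt (Real.pi / a) : ℝ) : ℂ) = ((Real.sqrt (Real.pi / a) : ℝ) : ℂ) *
      (jacobiTheta₂ (-(c : ℂ)) (((Real.pi / a : ℝ) : ℂ) * Complex.I) - 1) := by
    push_cast
    rw [h1]
    push_cast
    ring
  have h7 : |GS a c - Real.sqrt (Real.pi / a)| = Real.sqrt (Real.pi / a) *
      ‖jacobiTheta₂ (-(c : ℂ)) (((Real.pi / a : ℝ) : ℂ) * Complex.I) - 1‖ := by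
    rw [← Real.norm_eq_abs, ← Complex.norm_real, h6, norm_mul, Complex.norm_real,
      Real.norm_of_nonneg (Real.sqrt_nonneg _)]
  rw [h7]
  apply mul_le_mul_of_nonneg_left (h2.trans h5) (Real.sqrt_nonneg _)

end Pool.Agent.Y349.OC
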