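import Pool.Agent.Y349.OC.Window

set_option autoImplicit false

namespace Pool.Agent.Y349.OC

open Filter Topology Finset Nat Pool.Agent.H244R2

/-- finite sums in the window against the full shifted Gaussian sum -/
lemma gauss_window {a μ r κ : ℝ} (ha : 0 < a) (ha1 : a ≤ 1) (hr : 0 ≤ r) (hrμ : r ≤ μ)
    (hκ : Real.exp (-(a / 2 * r ^ 2)) ≤ κ) (F : Finset ℕ)
    (hF : ∀ m : ℕ, m ∈ F ↔ |(m:ℝ) - μ| ≤ r) :
    ∑ m ∈ F, Real.exp (-a * ((m:ℝ) - μ) ^ 2) ≤ Real.sqrt (Real.pi / a) * (1 + 4 * a) ∧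
    Real.sqrt (Real.pi / a) * (1 - 4 * a - 6 * κ) ≤
      ∑ m ∈ F, Real.exp (-a * ((m:ℝ) - μ) ^ 2) := by
  classical
  have hpi := Real.pi_pos
  set F' : Finset ℤ := F.map Nat.castEmbedding with hF'
  have hsum : ∑ m ∈ F, Real.exp (-a * ((m:ℝ) - μ) ^ 2) =
      ∑ z ∈ F', Real.exp (-a * ((z:ℝ) - μ) ^ 2) := by
    rw [hF', Finset.sum_map]
    apply Finset.sum_congr rfl
    intro m _
    simp
  have hs := summable_gs ha μ
  have hG := GS_bound ha ha1 μ
  rw [abs_le] at hG
  have ha2 : 0 < a / 2 := by linarith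
  have hs2 := summable_gs ha2 μ
  have hG2 := GS_bound ha2 (by linarith) μ
  rw [abs_le] at hG2
  rw [hsum]
  constructor
  · have h1 : ∑ z ∈ F', Real.exp (-a * ((z:ℝ) - μ) ^ 2) ≤ GS a μ :=
      hs.sum_le_tsum F' (fun z _ => (Real.exp_pos _).le)
    calc _ ≤ GS a μ := h1
      _ ≤ _ := by linarith
  · have h1 : GS a μ ≤ ∑ z ∈ F', Real.exp (-a * ((z:ℝ) - μ) ^ 2) + κ * GS (a / 2) μ := by
      have h2 : ∀ z : ℤ, Real.exp (-a * ((z:ℝ) - μ) ^ 2) ≤
          (if z ∈ F' then Real.exp (-a * ((z:ℝ) - μ) ^ 2) else 0) +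
            κ * Real.exp (-(a / 2) * ((z:ℝ) - μ) ^ 2) := by
        intro z
        have hκ0 : 0 ≤ κ := (Real.exp_pos _).le.trans hκ
        by_cases hz : z ∈ F'
        · rw [if_pos hz]
          have : 0 ≤ κ * Real.exp (-(a / 2) * ((z:ℝ) - μ) ^ 2) := by positivity
          linarith
        · rw [if_neg hz, zero_add]
          have h3 : r ≤ |(z:ℝ) - μ| := by
            by_contra hcon
            push Not at hcon
            apply hz
            rcases lt_or_ge z 0 with h4 | h4
            · exfalso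
              have h5 : (z:ℝ) < 0 := by exact_mod_cast h4
              rw [abs_of_neg (by linarith)] at hcon
              linarith
            · obtain ⟨m, rfl⟩ := Int.eq_ofNat_of_zero_le h4
              rw [hF', Finset.mem_map]
              refine ⟨m, (hF m).2 ?_, rfl⟩
              have : ((m : ℤ) : ℝ) = (m : ℝ) := by push_cast; rfl
              rw [this] at hcon
              exact hcon.le
          have h4 : r ^ 2 ≤ ((z:ℝ) - μ) ^ 2 := by
            rw [← sq_abs ((z:ℝ) - μ)]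
            exact pow_le_pow_left₀ hr h3 2
          calc Real.exp (-a * ((z:ℝ) - μ) ^ 2)
              = Real.exp (-(a / 2 * ((z:ℝ) - μ) ^ 2)) * Real.exp (-(a / 2) * ((z:ℝ) - μ) ^ 2) := by
                rw [← Real.exp_add]; congr 1; ring
            _ ≤ Real.exp (-(a / 2 * r ^ 2)) * Real.exp (-(a / 2) * ((z:ℝ) - μ) ^ 2) := by
                gcongr
            _ ≤ _ := by gcongr
      have hsi : Summable (fun z : ℤ => if z ∈ F' then Real.exp (-a * ((z:ℝ) - μ) ^ 2) else 0) :=
        summable_of_ne_finset_zero (s := F') (fun z hz => if_neg hz)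
      have h5 := Summable.tsum_le_tsum h2 hs (hsi.add (hs2.mul_left κ))
      rw [Summable.tsum_add hsi (hs2.mul_left κ), tsum_mul_left] at h5
      have h6 : ∑' z : ℤ, (if z ∈ F' then Real.exp (-a * ((z:ℝ) - μ) ^ 2) else 0) =
          ∑ z ∈ F', Real.exp (-a * ((z:ℝ) - μ) ^ 2) := by
        rw [tsum_eq_sum (s := F') (fun z hz => if_neg hz)]
        apply Finset.sum_congr rfl
        intro z hz
        rw [if_pos hz]
      rw [h6] at h5
      exact h5
    have h7 : Real.sqrt (Real.pi / (a / 2)) ≤ 2 * Real.sqrt (Real.pi / a) := by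
      have h8 : Real.pi / (a / 2) = 2 * (Real.pi / a) := by field_simp
      rw [h8]
      apply Real.sqrt_le_iff.2
      constructor
      · positivity
      · rw [mul_pow, Real.sq_sqrt (by positivity)]
        have : 0 ≤ Real.pi / a := by positivity
        linarith
    have hκ0 : 0 ≤ κ := (Real.exp_pos _).le.trans hκ
    have h9 : GS (a / 2) μ ≤ 6 * Real.sqrt (Real.pi / a) := by
      have h10 : GS (a / 2) μ ≤ Real.sqrt (Real.pi / (a / 2)) * (1 + 4 * (a / 2)) := by
        linarith [hG2.2]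
      calc GS (a / 2) μ ≤ Real.sqrt (Real.pi / (a / 2)) * (1 + 4 * (a / 2)) := h10
        _ ≤ (2 * Real.sqrt (Real.pi / a)) * 3 := by
            apply mul_le_mul h7 (by linarith) (by linarith) (by positivity)
        _ = _ := by ring
    have h11 : κ * GS (a / 2) μ ≤ κ * (6 * Real.sqrt (Real.pi / a)) := by gcongr
    calc Real.sqrt (Real.pi / a) * (1 - 4 * a - 6 * κ)
        = (Real.sqrt (Real.pi / a) - Real.sqrt (Real.pi / a) * (4 * a)) -
            κ * (6 * Real.sqrt (Real.pi / a)) := by ring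
      _ ≤ GS a μ - κ * GS (a / 2) μ := by linarith [hG.1]
      _ ≤ _ := by linarith

/-- the small quantities -/
lemma smalls : ∀ᶠ w : ℝ in atTop, 20 ≤ w ∧ 60 * (w + 1) * Real.exp (-(w / 5)) ≤ Real.exp (-(w / 8)) ∧
    2 * (w + 1) * Real.exp (-w) ≤ Real.exp (-(w / 8)) ∧
    6 * Real.exp (-Real.exp (w / 5)) ≤ Real.exp (-(w / 8)) ∧
    4 / Real.exp (-(2 * w / 5)) * Real.exp (-Real.exp (w / 5)) ≤ Real.exp (-(w / 8)) ∧
    Real.exp (-(w / 8)) ≤ 1 / 4 := by
  have h1 : Tendsto (fun w : ℝ => 60 * (w + 1) * Real.exp (-(3 * w / 40))) atTop (𝓝 0) := by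
    have h := (Real.tendsto_pow_mul_exp_neg_atTop_nhds_zero 1).comp
      (tendsto_id.const_mul_atTop (show (0:ℝ) < 3 / 40 by norm_num))
    have h' := (Real.tendsto_pow_mul_exp_neg_atTop_nhds_zero 0).comp
      (tendsto_id.const_mul_atTop (show (0:ℝ) < 3 / 40 by norm_num))
    have h3 := (h.const_mul 800).add (h'.const_mul 60)
    rw [mul_zero, mul_zero, add_zero] at h3
    refine h3.congr (fun w => ?_)
    simp only [Function.comp, id, pow_one, pow_zero, one_mul]
    rw [show -(3 / 40 * w) = -(3 * w / 40) by ring]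
    ring
  filter_upwards [h1.eventually_le_const (show (0:ℝ) < 1 by norm_num),
    eventually_ge_atTop (200:ℝ)] with w h1w hw
  have hexp : w ^ 2 / 50 ≤ Real.exp (w / 5) := by
    have := Real.pow_div_factorial_le_exp (w / 5) (by linarith) 2
    norm_num [Nat.factorial] at this
    calc w ^ 2 / 50 = (w / 5) ^ 2 / 2 := by ring
      _ ≤ _ := this
  have hexp2 : 4 * w ≤ Real.exp (w / 5) := by nlinarith
  have h8 : (6:ℝ) ≤ Real.exp w := by linarith [Real.add_one_le_exp w]
  refine ⟨by linarith, ?_, ?_, ?_, ?_, ?_⟩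
  · have h5 : Real.exp (-(w / 5)) = Real.exp (-(3 * w / 40)) * Real.exp (-(w / 8)) := by
      rw [← Real.exp_add]; congr 1; ring
    calc 60 * (w + 1) * Real.exp (-(w / 5))
        = (60 * (w + 1) * Real.exp (-(3 * w / 40))) * Real.exp (-(w / 8)) := by
          rw [h5]; ring
      _ ≤ 1 * Real.exp (-(w / 8)) := by gcongr
      _ = _ := one_mul _
  · have h2 : 2 * (w + 1) ≤ Real.exp (w / 5) := by linarith
    calc 2 * (w + 1) * Real.exp (-w) ≤ Real.exp (w / 5) * Real.exp (-w) := by gcongr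
      _ = Real.exp (w / 5 + -w) := (Real.exp_add _ _).symm
      _ ≤ _ := Real.exp_le_exp.2 (by linarith)
  · calc 6 * Real.exp (-Real.exp (w / 5)) ≤ Real.exp w * Real.exp (-(4 * w)) := by gcongr
      _ = Real.exp (w + -(4 * w)) := (Real.exp_add _ _).symm
      _ ≤ _ := Real.exp_le_exp.2 (by linarith)
  · have h4 : 4 / Real.exp (-(2 * w / 5)) = 4 * Real.exp (2 * w / 5) := by
      rw [Real.exp_neg, div_inv_eq_mul]
    rw [h4]
    calc 4 * Real.exp (2 * w / 5) * Real.exp (-Real.exp (w / 5))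
        ≤ Real.exp w * Real.exp (2 * w / 5) * Real.exp (-(4 * w)) := by
          gcongr
          linarith
      _ = Real.exp (w + 2 * w / 5 + -(4 * w)) := by rw [Real.exp_add, Real.exp_add]
      _ ≤ _ := Real.exp_le_exp.2 (by linarith)
  · rw [Real.exp_neg, inv_le_comm₀ (Real.exp_pos _) (by norm_num)]
    have := Real.add_one_le_exp (w / 8)
    norm_num; linarith

/-- the elementary main term of the Moser-Wyman formula -/
noncomputable def mwTerm (N : ℕ) (w : ℝ) : ℝ :=
  Real.exp (N * w - N + Real.exp w) / Real.sqrt (w + 1)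

lemma mwTerm_pos {N : ℕ} {w : ℝ} (hw : 0 ≤ w) : 0 < mwTerm N w := by
  unfold mwTerm
  have : 0 < w + 1 := by linarith
  positivity

lemma exp_sub_le_of_abs {x y θ : ℝ} (hx : 0 < x) (h : |Real.log x - y| ≤ θ) :
    Real.exp y * Real.exp (-θ) ≤ x ∧ x ≤ Real.exp y * Real.exp θ := by
  rw [abs_le] at h
  constructor
  · rw [← Real.exp_add]
    calc Real.exp (y + -θ) ≤ Real.exp (Real.log x) := Real.exp_le_exp.2 (by linarith)
      _ = x := Real.exp_log hx
  · rw [← Real.exp_add]
    calc x = Real.exp (Real.log x) := (Real.exp_log hx).symm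
      _ ≤ Real.exp (y + θ) := Real.exp_le_exp.2 (by linarith)

set_option maxHeartbeats 2000000 in
/-- the Moser-Wyman estimate, non asymptotic form -/
lemma mw_bound {N : ℕ} {w y : ℝ} (hN : w * Real.exp w = (N : ℝ)) (hw : 20 ≤ w)
    (hθ : 60 * (w + 1) * Real.exp (-(w / 5)) ≤ y)
    (ha4 : 2 * (w + 1) * Real.exp (-w) ≤ y)
    (hκ6 : 6 * Real.exp (-Real.exp (w / 5)) ≤ y)
    (hη : 4 / Real.exp (-(2 * w / 5)) * Real.exp (-Real.exp (w / 5)) ≤ y)
    (hy : y ≤ 1 / 4) :
    |(∑' m, dob N m) / mwTerm N w - 1| ≤ 8 * y := by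
  classical
  set μ := Real.exp w with hμd
  set δ := Real.exp (-(2 * w / 5)) with hδd
  have hμ : 0 < μ := Real.exp_pos _
  have hδ : 0 < δ := Real.exp_pos _
  have hpi := Real.pi_pos
  have hy0 : 0 < y := lt_of_lt_of_le (by positivity) hκ6
  have hw1 : 0 < w + 1 := by linarith
  set a := (w + 1) / (2 * μ) with had
  have ha : 0 < a := by positivity
  have h4a : 4 * a ≤ y := by
    have : 4 * a = 2 * (w + 1) * Real.exp (-w) := by
      rw [had, Real.exp_neg, ← hμd]; field_simp; ring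
    rw [this]; exact ha4
  have ha1 : a ≤ 1 := by linarith
  have hδ1 : δ ≤ 1 / 4 := by
    rw [hδd, Real.exp_neg, inv_le_comm₀ (Real.exp_pos _) (by norm_num)]
    have := Real.add_one_le_exp (2 * w / 5)
    norm_num; linarith
  have hμδ : 2 ≤ μ * δ := by
    rw [hμd, hδd, ← Real.exp_add]
    have := Real.add_one_le_exp (w + -(2 * w / 5))
    linarith
  have hμδ2 : μ * δ ^ 2 = Real.exp (w / 5) := by
    rw [hμd, hδd, ← Real.exp_nat_mul, ← Real.exp_add]; congr 1; push_cast; ring
  set r := 3 * (μ * δ) with hr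
  have hr0 : 0 ≤ r := by positivity
  have hrμ : r ≤ μ := by rw [hr]; nlinarith
  set M := ⌈2 * μ⌉₊ + 1 with hM
  set F : Finset ℕ := (Finset.range M).filter (fun m : ℕ => |(m:ℝ) - μ| ≤ r) with hF
  have hFmem : ∀ m : ℕ, m ∈ F ↔ |(m:ℝ) - μ| ≤ r := by
    intro m
    rw [hF, Finset.mem_filter, Finset.mem_range]
    constructor
    · exact fun h => h.2
    · intro h
      refine ⟨?_, h⟩
      have h1 : (m:ℝ) ≤ 2 * μ := by linarith [(abs_le.1 h).2]
      have h2 : (m:ℝ) ≤ ⌈2 * μ⌉₊ := h1.trans (Nat.le_ceil _)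
      have h3 : m ≤ ⌈2 * μ⌉₊ := by exact_mod_cast h2
      omega
  have hκ : Real.exp (-(a / 2 * r ^ 2)) ≤ Real.exp (-Real.exp (w / 5)) := by
    apply Real.exp_le_exp.2
    have h1 : a / 2 * r ^ 2 = (9 / 4) * (w + 1) * (μ * δ ^ 2) := by
      rw [had, hr]; field_simp; ring
    rw [h1, hμδ2]
    have : 0 < Real.exp (w / 5) := Real.exp_pos _
    nlinarith
  obtain ⟨hg1, hg2⟩ := gauss_window ha ha1 hr0 hrμ hκ F hFmem
  set S := ∑' m, dob N m with hS
  have hSpos : 0 < S := (summable_dob _).tsum_pos (dob_nonneg _) 1 (dob_pos _ one_pos)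
  -- tail
  have htail := window_tail (N := N) (w := w) (by linarith) hN hδ hδ1 hμδ
  rw [← hμd, ← hr, hμδ2, ← hS] at htail
  have hdec : S ≤ ∑ m ∈ F, dob N m + ∑' m : ℕ, (if |(m:ℝ) - μ| ≤ r then 0 else dob N m) := by
    have hsi : Summable (fun m : ℕ => if m ∈ F then dob N m else 0) :=
      summable_of_ne_finset_zero (s := F) (fun z hz => if_neg hz)
    have hst : Summable (fun m : ℕ => if |(m:ℝ) - μ| ≤ r then 0 else dob N m) := by
      refine Summable.of_nonneg_of_le (fun i => ?_) (fun i => ?_) (summable_dob N)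
      · split_ifs
        · exact le_rfl
        · exact dob_nonneg N i
      · split_ifs
        · exact dob_nonneg N i
        · exact le_rfl
    have h1 : ∑' m : ℕ, (if m ∈ F then dob N m else 0) = ∑ m ∈ F, dob N m := by
      rw [tsum_eq_sum (s := F) (fun z hz => if_neg hz)]
      apply Finset.sum_congr rfl
      intro z hz
      rw [if_pos hz]
    rw [← h1, ← Summable.tsum_add hsi hst]
    apply le_of_eq
    apply tsum_congr
    intro m
    by_cases hm : |(m:ℝ) - μ| ≤ r
    · rw [if_pos hm, if_pos ((hFmem m).2 hm), add_zero]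
    · rw [if_neg hm, if_neg (fun h => hm ((hFmem m).1 h)), zero_add]
  have hSF : S * (1 - y) ≤ ∑ m ∈ F, dob N m := by
    have h1 : 4 / δ * Real.exp (-Real.exp (w / 5)) * S ≤ y * S := by gcongr
    linarith
  have hFS : ∑ m ∈ F, dob N m ≤ S := (summable_dob N).sum_le_tsum F (fun m _ => dob_nonneg N m)
  -- Gaussian approximation
  set A := Real.exp (N * w - N + μ - Real.log (2 * Real.pi * μ) / 2) with hA
  have hA0 : 0 < A := Real.exp_pos _
  have hAG : A * Real.sqrt (Real.pi / a) = mwTerm N w := by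
    unfold mwTerm
    have h1 : Real.exp (Real.log (2 * Real.pi * μ) / 2) = Real.sqrt (2 * Real.pi * μ) := by
      rw [← Real.log_sqrt (by positivity), Real.exp_log (by positivity)]
    rw [hA, Real.exp_sub, h1, ← hμd]
    have h2 : Real.sqrt (Real.pi / a) = Real.sqrt (2 * Real.pi * μ) / Real.sqrt (w + 1) := by
      rw [← Real.sqrt_div (by positivity)]
      congr 1
      rw [had]; field_simp
    rw [h2]
    have h3 : Real.sqrt (2 * Real.pi * μ) ≠ 0 := by positivity
    have h4 : Real.sqrt (w + 1) ≠ 0 := by positivity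
    field_simp
  have hterm : ∀ m ∈ F, A * Real.exp (-y) * Real.exp (-a * ((m:ℝ) - μ) ^ 2) ≤ dob N m ∧
      dob N m ≤ A * Real.exp y * Real.exp (-a * ((m:ℝ) - μ) ^ 2) := by
    intro m hm
    have hm1 := (hFmem m).1 hm
    have hm0 : 0 < m := by
      rcases Nat.eq_zero_or_pos m with h0 | h0
      · exfalso
        subst h0
        rw [Nat.cast_zero, zero_sub, abs_neg, abs_of_pos hμ] at hm1
        rw [hr] at hm1
        nlinarith
      · exact h0
    have h1 := dob_window hw hN hm1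
    rw [← hμd, ← had] at h1
    obtain ⟨h2, h3⟩ := exp_sub_le_of_abs (dob_pos N hm0) (h1.trans hθ)
    have h4 : Real.exp (N * w - N + μ - Real.log (2 * Real.pi * μ) / 2 - a * ((m:ℝ) - μ) ^ 2) =
        A * Real.exp (-a * ((m:ℝ) - μ) ^ 2) := by
      rw [hA, ← Real.exp_add]; congr 1; ring
    rw [h4] at h2 h3
    constructor
    · linarith
    · linarith
  have hup : ∑ m ∈ F, dob N m ≤ Real.exp y * (1 + y) * mwTerm N w := by
    calc ∑ m ∈ F, dob N m ≤ ∑ m ∈ F, A * Real.exp y * Real.exp (-a * ((m:ℝ) - μ) ^ 2) :=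
          Finset.sum_le_sum (fun m hm => (hterm m hm).2)
      _ = A * Real.exp y * ∑ m ∈ F, Real.exp (-a * ((m:ℝ) - μ) ^ 2) := by rw [Finset.mul_sum]
      _ ≤ A * Real.exp y * (Real.sqrt (Real.pi / a) * (1 + y)) := by
          gcongr
          exact hg1.trans (by gcongr)
      _ = Real.exp y * (1 + y) * (A * Real.sqrt (Real.pi / a)) := by ring
      _ = _ := by rw [hAG]
  have hlow : Real.exp (-y) * (1 - 2 * y) * mwTerm N w ≤ ∑ m ∈ F, dob N m := by
    calc Real.exp (-y) * (1 - 2 * y) * mwTerm N w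
        = A * Real.exp (-y) * (Real.sqrt (Real.pi / a) * (1 - 2 * y)) := by rw [← hAG]; ring
      _ ≤ A * Real.exp (-y) * ∑ m ∈ F, Real.exp (-a * ((m:ℝ) - μ) ^ 2) := by
          apply mul_le_mul_of_nonneg_left _ (by positivity)
          refine le_trans ?_ hg2
          apply mul_le_mul_of_nonneg_left _ (Real.sqrt_nonneg _)
          linarith
      _ = ∑ m ∈ F, A * Real.exp (-y) * Real.exp (-a * ((m:ℝ) - μ) ^ 2) := by rw [Finset.mul_sum]
      _ ≤ _ := Finset.sum_le_sum (fun m hm => (hterm m hm).1)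
  have hT := mwTerm_pos (N := N) (w := w) (by linarith)
  set T := mwTerm N w with hTd
  have he1 : Real.exp y ≤ 1 + 2 * y := by
    have h7 := Real.abs_exp_sub_one_le (x := y) (by rw [abs_of_pos hy0]; linarith)
    rw [abs_of_pos hy0] at h7
    linarith [abs_le.1 h7]
  have he2 : 1 - y ≤ Real.exp (-y) := by linarith [Real.add_one_le_exp (-y)]
  have hSup : S ≤ (1 + 8 * y) * T := by
    have h1 : S * (1 - y) ≤ (1 + 2 * y) * (1 + y) * T := by
      refine (hSF.trans hup).trans ?_
      gcongr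
    have h2 : (1 + 2 * y) * (1 + y) ≤ (1 + 8 * y) * (1 - y) := by
      have : 0 ≤ y * (4 - 10 * y) := mul_nonneg hy0.le (by linarith)
      linarith
    have h3 : S * (1 - y) ≤ ((1 + 8 * y) * T) * (1 - y) := by
      calc S * (1 - y) ≤ (1 + 2 * y) * (1 + y) * T := h1
        _ ≤ ((1 + 8 * y) * (1 - y)) * T := by gcongr
        _ = _ := by ring
    exact le_of_mul_le_mul_right h3 (by linarith)
  have hSlow : (1 - 8 * y) * T ≤ S := by
    have h1 : (1 - y) * (1 - 2 * y) * T ≤ S := by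
      refine le_trans ?_ (hlow.trans hFS)
      have : 0 ≤ 1 - 2 * y := by linarith
      gcongr
    refine le_trans ?_ h1
    apply mul_le_mul_of_nonneg_right _ hT.le
    have : 0 ≤ y * (5 + 2 * y) := mul_nonneg hy0.le (by linarith)
    linarith
  rw [abs_le]
  constructor
  · have : 1 - 8 * y ≤ S / T := by rwa [le_div_iff₀ hT]
    linarith
  · have : S / T ≤ 1 + 8 * y := by rwa [div_le_iff₀ hT]
    linarith

lemma exp_neg_le_rpow' {w x : ℝ} (hw : 20 ≤ w) (h : w * Real.exp w = x) :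
    Real.exp (-(w / 8)) ≤ x ^ (-(1 / 10) : ℝ) := by
  have hx : 0 < x := by rw [← h]; positivity
  have h1 : x ≤ Real.exp (5 * w / 4) := by
    rw [← h]
    have h2 : w ≤ Real.exp (w / 4) := by
      have := Real.pow_div_factorial_le_exp (w / 4) (by linarith) 3
      norm_num [Nat.factorial] at this
      have h3 : (w / 4) ^ 3 / 6 = w * (w ^ 2 / 384) := by ring
      rw [h3] at this
      nlinarith
    calc w * Real.exp w ≤ Real.exp (w / 4) * Real.exp w := by gcongr
      _ = Real.exp (w / 4 + w) := (Real.exp_add _ _).symm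
      _ = _ := by congr 1; ring
  calc Real.exp (-(w / 8)) = (Real.exp (5 * w / 4)) ^ (-(1 / 10) : ℝ) := by
        rw [← Real.exp_mul]; congr 1; ring
    _ ≤ x ^ (-(1 / 10) : ℝ) := Real.rpow_le_rpow_of_nonpos hx h1 (by norm_num)

/-- **Moser-Wyman formula** for the Bell numbers with a power saving error term -/
theorem moser_wyman : ∀ᶠ N : ℕ in atTop, |Real.exp 1 * (Nat.bell N : ℝ) /
    mwTerm N (lamW (N : ℝ)) - 1| ≤ 8 * (N : ℝ) ^ (-(1 / 10) : ℝ) := by
  have hwt : Tendsto (fun n : ℕ => lamW (n : ℝ)) atTop atTop :=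
    tendsto_lamW.comp tendsto_natCast_atTop_atTop
  filter_upwards [hwt.eventually smalls] with N h
  obtain ⟨hw, h1, h2, h3, h4, h5⟩ := h
  have hN : lamW (N : ℝ) * Real.exp (lamW (N : ℝ)) = (N : ℝ) := lamW_eq (by positivity)
  have h6 := mw_bound hN hw h1 h2 h3 h4 h5
  rw [tsum_dob] at h6
  refine h6.trans ?_
  have := exp_neg_le_rpow' hw hN
  linarith

end Pool.Agent.Y349.OC
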