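import Pool.Agent.H244R2.GraphFinal
import Pool.Agent.H244R2.BipFinal

set_option autoImplicit false

namespace Pool.Agent.Y349.OC

open Filter Topology Finset Nat Asymptotics Pool.Agent.H244R2

lemma lamW_unique {w x : ℝ} (hw : 0 ≤ w) (h : w * Real.exp w = x) : w = lamW x := by
  have hx : 0 ≤ x := by rw [← h]; positivity
  have key : ∀ a b : ℝ, 0 ≤ a → a < b → a * Real.exp a < b * Real.exp b := by
    intro a b ha hab
    calc a * Real.exp a ≤ a * Real.exp b := by gcongr
      _ < b * Real.exp b := by gcongr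
  rcases lt_trichotomy w (lamW x) with h1 | h1 | h1
  · have := key _ _ hw h1
    rw [h, lamW_eq hx] at this
    exact absurd this (lt_irrefl _)
  · exact h1
  · have := key _ _ (lamW_nonneg x) h1
    rw [h, lamW_eq hx] at this
    exact absurd this (lt_irrefl _)

/-- comparison of the two scales -/
lemma exp_neg_le_rpow {w x : ℝ} (hx : 0 < x) (h : w * Real.exp w = x) :
    Real.exp (-(w / 5)) ≤ x ^ (-(1 / 10) : ℝ) := by
  have h1 : x ≤ Real.exp (2 * w) := by
    rw [← h, two_mul, Real.exp_add]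
    have : w ≤ Real.exp w := by linarith [Real.add_one_le_exp w]
    gcongr
  calc Real.exp (-(w / 5)) = (Real.exp (2 * w)) ^ (-(1 / 10) : ℝ) := by
        rw [← Real.exp_mul]; congr 1; ring
    _ ≤ x ^ (-(1 / 10) : ℝ) := Real.rpow_le_rpow_of_nonpos hx h1 (by norm_num)

lemma cube_le : ∀ᶠ w : ℝ in atTop, w ^ 3 * Real.exp (-(w / 4)) ≤ Real.exp (-(w / 5)) := by
  have h1 : Tendsto (fun w : ℝ => w ^ 3 * Real.exp (-(w / 20))) atTop (𝓝 0) := by
    have h := (Real.tendsto_pow_mul_exp_neg_atTop_nhds_zero 3).comp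
      (tendsto_id.const_mul_atTop (show (0:ℝ) < 1 / 20 by norm_num))
    have h3 := h.const_mul (20 ^ 3)
    rw [mul_zero] at h3
    refine h3.congr (fun w => ?_)
    simp only [Function.comp, id]
    rw [show -(1 / 20 * w) = -(w / 20) by ring]
    ring
  filter_upwards [h1.eventually_le_const (show (0:ℝ) < 1 by norm_num)] with w hw
  calc w ^ 3 * Real.exp (-(w / 4)) = (w ^ 3 * Real.exp (-(w / 20))) * Real.exp (-(w / 5)) := by
        rw [mul_assoc, ← Real.exp_add]; congr 2; ring
    _ ≤ 1 * Real.exp (-(w / 5)) := by gcongr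
    _ = _ := one_mul _

lemma tailErr_le : ∀ᶠ w : ℝ in atTop, tailErr w ≤ Real.exp (-(w / 5)) := by
  filter_upwards [eventually_ge_atTop (200:ℝ)] with w hw
  unfold tailErr
  have h8 : (8:ℝ) ≤ Real.exp w := by linarith [Real.add_one_le_exp w]
  have h1 : w ^ 3 / 48 ≤ Real.exp (w / 2) := by
    have := Real.pow_div_factorial_le_exp (w / 2) (by linarith) 3
    norm_num [Nat.factorial] at this
    calc w ^ 3 / 48 = (w / 2) ^ 3 / 6 := by ring
      _ ≤ _ := this
  calc 8 * Real.exp (w / 4) * Real.exp (w ^ 2) * Real.exp (-Real.exp (w / 2))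
      ≤ Real.exp w * Real.exp (w / 4) * Real.exp (w ^ 2) * Real.exp (-(w ^ 3 / 48)) := by gcongr
    _ = Real.exp (w + w / 4 + w ^ 2 + -(w ^ 3 / 48)) := by
        rw [Real.exp_add, Real.exp_add, Real.exp_add]
    _ ≤ Real.exp (-(w / 5)) := by
        apply Real.exp_le_exp.2
        have h2 : w ^ 2 * (w / 48) = w ^ 3 / 48 := by ring
        have h3 : w ^ 2 * 4 ≤ w ^ 2 * (w / 48) := by
          apply mul_le_mul_of_nonneg_left _ (by positivity)
          linarith
        nlinarith

/-- the ratio has a power saving rate -/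
lemma ratio_rate {R w : ℕ → ℝ} {C : ℝ} (hC : 0 ≤ C) (hw : Tendsto w atTop atTop)
    {N : ℕ → ℝ} (hN : ∀ᶠ n in atTop, 0 < N n ∧ w n * Real.exp (w n) = N n)
    (h : ∀ᶠ n in atTop, Real.exp (-(C * (w n ^ 3 * Real.exp (-(w n / 4))))) * (1 - tailErr (w n)) ≤ R n ∧
      R n ≤ Real.exp (C * (w n ^ 3 * Real.exp (-(w n / 4)))) + tailErr (w n)) :
    ∀ᶠ n in atTop, |R n - 1| ≤ (2 * C + 1) * (N n) ^ (-(1 / 10) : ℝ) := by
  have h5 : Tendsto (fun n => C * Real.exp (-(w n / 5))) atTop (𝓝 0) := by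
    have h6 : Tendsto (fun n => Real.exp (-(w n / 5))) atTop (𝓝 0) :=
      Real.tendsto_exp_neg_atTop_nhds_zero.comp (hw.atTop_div_const (by norm_num))
    simpa using h6.const_mul C
  filter_upwards [h, hN, hw.eventually cube_le, hw.eventually tailErr_le,
    h5.eventually_le_const (show (0:ℝ) < 1 by norm_num), hw.eventually_ge_atTop 0]
    with n hn hNn hcube htail hsmall hw0
  set y := Real.exp (-(w n / 5)) with hy
  have hy0 : 0 < y := Real.exp_pos _
  have hyle : y ≤ (N n) ^ (-(1 / 10) : ℝ) := exp_neg_le_rpow hNn.1 hNn.2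
  have hT0 := tailErr_nonneg (w n)
  set x := w n ^ 3 * Real.exp (-(w n / 4)) with hx
  have hx0 : 0 ≤ x := by positivity
  have hCx : C * x ≤ C * y := by gcongr
  have hCx0 : 0 ≤ C * x := by positivity
  have hup : R n ≤ 1 + (2 * C + 1) * y := by
    have h1 : Real.exp (C * x) ≤ 1 + 2 * (C * x) := by
      have := Real.exp_bound_div_one_sub_of_interval hCx0
      by_cases hlt : C * x < 1
      · have h7 := Real.abs_exp_sub_one_le (x := C * x) (by rw [abs_of_nonneg hCx0]; linarith)
        rw [abs_of_nonneg hCx0] at h7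
        linarith [abs_le.1 h7]
      · have h8 : C * x = 1 := le_antisymm (by linarith) (by linarith)
        rw [h8]
        linarith [Real.exp_one_lt_d9]
    calc R n ≤ Real.exp (C * x) + tailErr (w n) := hn.2
      _ ≤ 1 + 2 * (C * x) + y := by linarith
      _ ≤ 1 + 2 * (C * y) + y := by linarith
      _ = _ := by ring
  have hlow : 1 - (2 * C + 1) * y ≤ R n := by
    have h1 : 1 - C * x ≤ Real.exp (-(C * x)) := by linarith [Real.add_one_le_exp (-(C * x))]
    have h2 : Real.exp (-(C * x)) ≤ 1 := Real.exp_le_one_iff.2 (by linarith)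
    have h3 : 1 - C * x - tailErr (w n) ≤ Real.exp (-(C * x)) * (1 - tailErr (w n)) := by
      nlinarith
    have h4 : 0 ≤ C * y := by positivity
    linarith [hn.1]
  have hK : (2 * C + 1) * y ≤ (2 * C + 1) * (N n) ^ (-(1 / 10) : ℝ) := by gcongr
  rw [abs_le]
  constructor <;> linarith

set_option maxHeartbeats 2000000 in
/-- asymptotics of the bipartite main sum with a rate -/
theorem bSum_rate : ∀ᶠ n : ℕ in atTop, |bSum n /
    (Real.exp 1 ^ 2 * ((Nat.bell n : ℝ) ^ 2 / (n ! : ℝ) *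
      Real.exp (-(lamW (n : ℝ) ^ 2 / 2)))) - 1| ≤ (2 * 60 + 1) * (n : ℝ) ^ (-(1 / 10) : ℝ) := by
  have hwt : Tendsto (fun n : ℕ => lamW (n : ℝ)) atTop atTop :=
    tendsto_lamW.comp tendsto_natCast_atTop_atTop
  apply ratio_rate (by norm_num) hwt (N := fun n : ℕ => (n : ℝ))
  · filter_upwards [eventually_gt_atTop 0] with n hn
    exact ⟨by exact_mod_cast hn, lamW_eq (by positivity)⟩
  filter_upwards [hwt.eventually_ge_atTop 16, eventually_gt_atTop 0] with n hw hn
  set w := lamW (n : ℝ) with hwdef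
  have hN : w * Real.exp w = (n : ℝ) := lamW_eq (by positivity)
  obtain ⟨hδ1, hμδ⟩ := window_params hw
  have htail := window_tail (N := n) (by linarith) hN (Real.exp_pos _) hδ1 hμδ
  set S := ∑' m, dob n m with hS
  have hSpos : 0 < S := (summable_dob _).tsum_pos (dob_nonneg _) 1 (dob_pos _ one_pos)
  set c := Real.exp (-(w ^ 2 / 2)) with hc
  have hcpos : 0 < c := Real.exp_pos _
  set η := 4 / Real.exp (-(w / 4)) * Real.exp (-(Real.exp w * Real.exp (-(w / 4)) ^ 2)) with hη
  set D : ℕ → Prop := fun m => |(m:ℝ) - Real.exp w| ≤ 3 * (Real.exp w * Real.exp (-(w / 4))) with hD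
  have hDdec : DecidablePred D := Classical.decPred D
  have htail' : ∑' m : ℕ, (if D m then 0 else dob n m) ≤ η * S := by
    convert htail
  have hDs : Summable (fun m : ℕ => if D m then 0 else dob n m) := by
    refine Summable.of_nonneg_of_le (fun i => ?_) (fun i => ?_) (summable_dob n)
    · split_ifs
      · exact le_rfl
      · exact dob_nonneg n i
    · split_ifs
      · exact dob_nonneg n i
      · exact le_rfl
  have hDnn : ∀ m : ℕ, 0 ≤ (if D m then 0 else dob n m) := by
    intro i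
    split_ifs
    · exact le_rfl
    · exact dob_nonneg n i
  have hs1 : Summable (fun p : ℕ × ℕ => (if D p.1 then 0 else dob n p.1) * dob n p.2) :=
    hDs.mul_of_nonneg (summable_dob n) hDnn (dob_nonneg n)
  have hs2 : Summable (fun p : ℕ × ℕ => dob n p.1 * (if D p.2 then 0 else dob n p.2)) :=
    (summable_dob n).mul_of_nonneg hDs (dob_nonneg n) hDnn
  have htail2 : ∑' p : ℕ × ℕ, (if (D p.1 ∧ D p.2) then 0 else dob2 n p) ≤ (2 * η) * S ^ 2 := by
    have h1 : ∑' p : ℕ × ℕ, (if (D p.1 ∧ D p.2) then 0 else dob2 n p) ≤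
        ∑' p : ℕ × ℕ, ((if D p.1 then 0 else dob n p.1) * dob n p.2 +
          dob n p.1 * (if D p.2 then 0 else dob n p.2)) := by
      apply Summable.tsum_le_tsum
      · intro p
        have h3 := dob_nonneg n p.1
        have h4 := dob_nonneg n p.2
        have h5 := mul_nonneg h3 h4
        unfold dob2
        by_cases hd1 : D p.1 <;> by_cases hd2 : D p.2 <;> simp [hd1, hd2, h5]
      · refine Summable.of_nonneg_of_le (fun p => ?_) (fun p => ?_) (summable_dob2 n)
        · split_ifs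
          · exact le_rfl
          · exact dob2_nonneg n p
        · split_ifs
          · exact dob2_nonneg n p
          · exact le_rfl
      · exact hs1.add hs2
    rw [Summable.tsum_add hs1 hs2] at h1
    have h2 := hDs.tsum_mul_tsum (summable_dob n) hs1
    have h3 := (summable_dob n).tsum_mul_tsum hDs hs2
    rw [← h2, ← h3, ← hS] at h1
    calc _ ≤ _ := h1
      _ ≤ (η * S) * S + S * (η * S) := by gcongr
      _ = _ := by ring
  have havg := avg_bounds (dob2 n) (hb n) (fun p : ℕ × ℕ => D p.1 ∧ D p.2)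
    (dob2_nonneg _) (summable_dob2 _) (tsum_dob2 n) (hb_nonneg n) (hb_le_one n) hcpos.le htail2
    (fun p hp => hb_window hw hN hp.1 hp.2)
  have hη2 := eta_le (w := w)
  rw [← hη] at hη2
  have hη0 : 0 ≤ η := by rw [hη]; positivity
  have hE0 := tailErr_nonneg w
  have hηE : 2 * η ≤ tailErr w := by
    have : Real.exp (-w ^ 2) ≤ 1 := by
      rw [Real.exp_le_one_iff]; nlinarith
    nlinarith
  have hηc : 2 * η ≤ tailErr w * c := by
    have h1 : Real.exp (-w ^ 2) ≤ c := by
      rw [hc]; apply Real.exp_le_exp.2; nlinarith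
    nlinarith
  have hgs : bSum n / (Real.exp 1 ^ 2 * ((Nat.bell n : ℝ) ^ 2 / (n ! : ℝ) * c)) =
      (∑' p, hb n p * dob2 n p) / (c * S ^ 2) := by
    rw [bSum_eq hn, hS, tsum_dob]
    have hb : (Nat.bell n : ℝ) ≠ 0 := by exact_mod_cast (bell_pos _).ne'
    have hn' : (n ! : ℝ) ≠ 0 := by positivity
    field_simp
  rw [hgs]
  constructor
  · rw [le_div_iff₀ (by positivity)]
    calc _ ≤ Real.exp (-(60 * (w ^ 3 * Real.exp (-(w / 4))))) * (1 - 2 * η) * (c * S ^ 2) := by
          gcongr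
      _ = c * Real.exp (-(60 * (w ^ 3 * Real.exp (-(w / 4))))) * (1 - 2 * η) * S ^ 2 := by ring
      _ ≤ _ := havg.1
  · rw [div_le_iff₀ (by positivity)]
    refine havg.2.trans ?_
    calc (c * Real.exp (60 * (w ^ 3 * Real.exp (-(w / 4)))) + 2 * η) * S ^ 2
        ≤ (c * Real.exp (60 * (w ^ 3 * Real.exp (-(w / 4)))) + tailErr w * c) * S ^ 2 := by gcongr
      _ = _ := by ring


set_option maxHeartbeats 2000000 in
/-- asymptotics of the graph main sum with a rate -/
theorem gSum_rate : ∀ᶠ n : ℕ in atTop, |gSum n /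
    (Real.exp 1 * ((Nat.bell (2 * n) : ℝ) / (2 ^ n * (n ! : ℝ)) *
      Real.exp (-(lamW ((2 * n : ℕ) : ℝ) / 2) - lamW ((2 * n : ℕ) : ℝ) ^ 2 / 4))) - 1| ≤
      (2 * 50 + 1) * ((2 * n : ℕ) : ℝ) ^ (-(1 / 10) : ℝ) := by
  have hwt : Tendsto (fun n : ℕ => lamW ((2 * n : ℕ) : ℝ)) atTop atTop := by
    apply tendsto_lamW.comp
    apply tendsto_natCast_atTop_atTop.comp
    exact tendsto_id.const_mul_atTop' (by norm_num)
  apply ratio_rate (by norm_num) hwt (N := fun n : ℕ => ((2 * n : ℕ) : ℝ))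
  · filter_upwards [eventually_gt_atTop 0] with n hn
    exact ⟨by exact_mod_cast (by omega : 0 < 2 * n), lamW_eq (by positivity)⟩
  filter_upwards [hwt.eventually_ge_atTop 16, eventually_gt_atTop 0] with n hw hn
  set w := lamW ((2 * n : ℕ) : ℝ) with hwdef
  have hN : w * Real.exp w = ((2 * n : ℕ) : ℝ) := lamW_eq (by positivity)
  obtain ⟨hδ1, hμδ⟩ := window_params hw
  have htail := window_tail (N := 2 * n) (by linarith) hN (Real.exp_pos _) hδ1 hμδ
  set S := ∑' m, dob (2 * n) m with hS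
  have hSpos : 0 < S := (summable_dob _).tsum_pos (dob_nonneg _) 1 (dob_pos _ one_pos)
  set c := Real.exp (-(w / 2) - w ^ 2 / 4) with hc
  have hcpos : 0 < c := Real.exp_pos _
  have havg := avg_bounds (dob (2 * n)) (h2 n)
    (fun m : ℕ => |(m:ℝ) - Real.exp w| ≤ 3 * (Real.exp w * Real.exp (-(w / 4))))
    (dob_nonneg _) (summable_dob _) hS.symm (h2_nonneg n) (h2_le_one n) hcpos.le htail
    (fun m hm => h2_window hw hN hm)
  set η := 4 / Real.exp (-(w / 4)) * Real.exp (-(Real.exp w * Real.exp (-(w / 4)) ^ 2)) with hη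
  have hη2 := eta_le (w := w)
  rw [← hη] at hη2
  have hη0 : 0 ≤ η := by rw [hη]; positivity
  have hE0 := tailErr_nonneg w
  have hηE : η ≤ tailErr w := by
    have : Real.exp (-w ^ 2) ≤ 1 := by
      rw [Real.exp_le_one_iff]; nlinarith
    nlinarith
  have hηc : η ≤ tailErr w * c := by
    have h1 : Real.exp (-w ^ 2) ≤ c := by
      rw [hc]; apply Real.exp_le_exp.2; nlinarith
    nlinarith
  have hgs : gSum n / (Real.exp 1 * ((Nat.bell (2 * n) : ℝ) / (2 ^ n * (n ! : ℝ)) * c)) =
      (∑' m, h2 n m * dob (2 * n) m) / (c * S) := by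
    rw [gSum_eq hn, hS, tsum_dob]
    have hb : (Nat.bell (2 * n) : ℝ) ≠ 0 := by exact_mod_cast (bell_pos _).ne'
    have hn' : (n ! : ℝ) ≠ 0 := by positivity
    field_simp
  rw [hgs]
  constructor
  · rw [le_div_iff₀ (by positivity)]
    calc _ ≤ Real.exp (-(50 * (w ^ 3 * Real.exp (-(w / 4))))) * (1 - η) * (c * S) := by
          gcongr
      _ = c * Real.exp (-(50 * (w ^ 3 * Real.exp (-(w / 4))))) * (1 - η) * S := by ring
      _ ≤ _ := havg.1
  · rw [div_le_iff₀ (by positivity)]
    refine havg.2.trans ?_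
    calc (c * Real.exp (50 * (w ^ 3 * Real.exp (-(w / 4)))) + η) * S
        ≤ (c * Real.exp (50 * (w ^ 3 * Real.exp (-(w / 4)))) + tailErr w * c) * S := by gcongr
      _ = _ := by ring


end Pool.Agent.Y349.OC
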