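import Pool.Agent.Y349.OC.Gauss
import Pool.Agent.Y349.OC.Rate

set_option autoImplicit false

namespace Pool.Agent.Y349.OC

open Filter Topology Finset Nat Pool.Agent.H244R2

/-- quantitative Stirling formula -/
lemma stirling_log {m : ℕ} (hm : 0 < m) :
    m * Real.log m - m + Real.log (2 * Real.pi * m) / 2 ≤ Real.log (m ! : ℝ) ∧
      Real.log (m ! : ℝ) ≤ m * Real.log m - m + Real.log (2 * Real.pi * m) / 2 + 1 / (12 * m) := by
  have hm0 : (0:ℝ) < m := by exact_mod_cast hm
  have hpi := Real.pi_pos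
  have h2pm : Real.log (2 * Real.pi * m) = Real.log m + Real.log (2 * Real.pi) := by
    rw [mul_comm, Real.log_mul hm0.ne' (by positivity)]
  constructor
  · have := Stirling.le_log_factorial_stirling hm.ne'
    rw [h2pm]
    linarith
  · have hstep : ∀ k : ℕ, Real.log (Stirling.stirlingSeq m) - 1 / (12 * m) ≤
        Real.log (Stirling.stirlingSeq (m + k)) - 1 / (12 * ((m + k : ℕ) : ℝ)) := by
      intro k
      induction k with
      | zero => simp
      | succ k ih =>
        refine ih.trans ?_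
        have h1 := Stirling.log_stirlingSeq_sdiff_le (m + k)
        have h2 : (1:ℝ) / (12 * ((m + k : ℕ) : ℝ) * (((m + k : ℕ) : ℝ) + 1)) =
            1 / (12 * ((m + k : ℕ) : ℝ)) - 1 / (12 * ((m + (k + 1) : ℕ) : ℝ)) := by
          push_cast
          field_simp
          ring
        rw [h2] at h1
        have h3 : m + (k + 1) = m + k + 1 := rfl
        rw [h3]
        rw [h3] at h1
        linarith
    have hlim : Tendsto (fun k : ℕ => Real.log (Stirling.stirlingSeq (m + k)) -
        1 / (12 * ((m + k : ℕ) : ℝ))) atTop (𝓝 (Real.log (Real.sqrt Real.pi) - 0)) := by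
      apply Tendsto.sub
      · have h1 := Stirling.tendsto_stirlingSeq_sqrt_pi
        have h2 : Tendsto (fun k : ℕ => m + k) atTop atTop := by
          simpa only [add_comm] using tendsto_add_atTop_nat m
        have h3 := h1.comp h2
        have h4 : (Real.sqrt Real.pi) ≠ 0 := (Real.sqrt_pos.2 hpi).ne'
        exact (Real.continuousAt_log h4).tendsto.comp h3
      · have h2 : Tendsto (fun k : ℕ => m + k) atTop atTop := by
          simpa only [add_comm] using tendsto_add_atTop_nat m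
        apply tendsto_const_nhds.div_atTop
        exact (tendsto_natCast_atTop_atTop.comp h2).const_mul_atTop (by norm_num)
    have h5 := ge_of_tendsto' hlim hstep
    rw [sub_zero, Real.log_sqrt hpi.le] at h5
    have h6 := Stirling.log_stirlingSeq_formula m
    have h7 : Real.log ((m:ℝ) / Real.exp 1) = Real.log m - 1 := by
      rw [Real.log_div hm0.ne' (Real.exp_pos _).ne', Real.log_exp]
    have h8 : Real.log (2 * (m:ℝ)) = Real.log 2 + Real.log m :=
      Real.log_mul (by norm_num) hm0.ne'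
    have h9 : Real.log (2 * Real.pi) = Real.log 2 + Real.log Real.pi :=
      Real.log_mul (by norm_num) hpi.ne'
    rw [h7, h8] at h6
    rw [h2pm, h9]
    have h10 : (m:ℝ) * (Real.log m - 1) = m * Real.log m - m := by ring
    rw [h10] at h6
    linarith

/-- third order expansion of the logarithm -/
lemma log_expand {t : ℝ} (ht : |t| ≤ 1 / 2) :
    |Real.log (1 + t) - t + t ^ 2 / 2| ≤ 2 * |t| ^ 3 := by
  have h := Real.abs_log_sub_add_sum_range_le (x := -t) (by rw [abs_neg]; linarith) 2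
  rw [Finset.sum_range_succ, Finset.sum_range_succ, Finset.sum_range_zero, abs_neg] at h
  have h1 : |t| ^ (2 + 1) / (1 - |t|) ≤ 2 * |t| ^ 3 := by
    rw [div_le_iff₀ (by linarith)]
    have h3 : 0 ≤ |t| ^ 3 * (1 / 2 - |t|) := mul_nonneg (by positivity) (by linarith)
    have h4 : |t| ^ (2 + 1) = |t| ^ 3 := rfl
    rw [h4]
    linarith
  refine le_trans (le_of_eq ?_) (h.trans h1)
  congr 1
  norm_num
  ring

lemma log_abs_le {t : ℝ} (ht : |t| ≤ 1 / 2) : |Real.log (1 + t)| ≤ 2 * |t| := by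
  have h := Real.abs_log_sub_add_sum_range_le (x := -t) (by rw [abs_neg]; linarith) 0
  rw [Finset.sum_range_zero, abs_neg, sub_neg_eq_add, zero_add, zero_add, pow_one] at h
  refine h.trans ?_
  rw [div_le_iff₀ (by linarith)]
  have : 0 ≤ |t| := abs_nonneg _
  nlinarith

/-- the Dobinski terms in the window are Gaussian -/
lemma dob_window {N m : ℕ} {w : ℝ} (hw : 20 ≤ w) (hN : w * Real.exp w = (N : ℝ))
    (hm : |(m:ℝ) - Real.exp w| ≤ 3 * (Real.exp w * Real.exp (-(2 * w / 5)))) :
    |Real.log (dob N m) - (N * w - N + Real.exp w - Real.log (2 * Real.pi * Real.exp w) / 2 -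
      (w + 1) / (2 * Real.exp w) * ((m:ℝ) - Real.exp w) ^ 2)| ≤
      60 * (w + 1) * Real.exp (-(w / 5)) := by
  set μ := Real.exp w with hμd
  set δ := Real.exp (-(2 * w / 5)) with hδd
  set ε := Real.exp (-(w / 5)) with hεd
  have hμ : 0 < μ := Real.exp_pos _
  have hδ : 0 < δ := Real.exp_pos _
  have hε : 0 < ε := Real.exp_pos _
  have hpi := Real.pi_pos
  have hδε : δ = ε ^ 2 := by
    rw [hδd, hεd, ← Real.exp_nat_mul]; congr 1; push_cast; ring
  have hμε : μ * ε ^ 5 = 1 := by
    rw [hμd, hεd, ← Real.exp_nat_mul, ← Real.exp_add]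
    have : w + ((5:ℕ):ℝ) * -(w / 5) = 0 := by push_cast; ring
    rw [this, Real.exp_zero]
  have hε1 : ε ≤ 1 / 5 := by
    rw [hεd, Real.exp_neg, inv_le_comm₀ (Real.exp_pos _) (by norm_num)]
    have := Real.add_one_le_exp (w / 5)
    norm_num; linarith
  set t := ((m:ℝ) - μ) / μ with ht
  have hmt : (m:ℝ) = μ * (1 + t) := by rw [ht]; field_simp; ring
  have htδ : |t| ≤ 3 * δ := by
    rw [ht, abs_div, abs_of_pos hμ, div_le_iff₀ hμ]
    linarith
  have ht2 : |t| ≤ 1 / 2 := by
    have : δ ≤ 1 / 25 := by rw [hδε]; nlinarith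
    linarith
  have h1t : 0 < 1 + t := by linarith [(abs_le.1 ht2).1]
  have hm0 : (0:ℝ) < m := by rw [hmt]; positivity
  have hm0' : 0 < m := by exact_mod_cast hm0
  set L := Real.log (1 + t) with hL
  have hlogm : Real.log m = w + L := by
    rw [hmt, Real.log_mul hμ.ne' h1t.ne', hμd, Real.log_exp]
  have hlogd : Real.log (dob N m) = N * Real.log m - Real.log (m ! : ℝ) := by
    unfold dob
    rw [Real.log_div (by positivity) (by positivity), Real.log_pow]
  obtain ⟨hs1, hs2⟩ := stirling_log hm0'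
  have h2pm : Real.log (2 * Real.pi * m) = Real.log (2 * Real.pi * μ) + L := by
    rw [hmt, ← mul_assoc, Real.log_mul (by positivity) h1t.ne']
  set R := L - t + t ^ 2 / 2 with hR
  have hRb : |R| ≤ 2 * |t| ^ 3 := log_expand ht2
  have hLb : |L| ≤ 2 * |t| := log_abs_le ht2
  have hx : (w + 1) / (2 * μ) * ((m:ℝ) - μ) ^ 2 = (w + 1) * μ * t ^ 2 / 2 := by
    rw [ht]; field_simp
  have hmain : (N:ℝ) * Real.log m - (m * Real.log m - m) =
      N * w - N + μ - (w + 1) * μ * t ^ 2 / 2 +
        μ * ((w - 1) * R + t ^ 3 / 2 - t * R) := by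
    rw [hlogm, ← hN, hmt, hR]
    ring
  have ht3 : |t| ^ 3 ≤ 27 * ε ^ 6 := by
    calc |t| ^ 3 ≤ (3 * δ) ^ 3 := pow_le_pow_left₀ (abs_nonneg _) htδ 3
      _ = 27 * ε ^ 6 := by rw [hδε]; ring
  have hE : |μ * ((w - 1) * R + t ^ 3 / 2 - t * R)| ≤ 54 * (w + 1) * ε := by
    have h1 : |(w - 1) * R + t ^ 3 / 2 - t * R| ≤ 2 * (w + 1) * |t| ^ 3 := by
      have h3 : |(w - 1) * R| ≤ (w - 1) * (2 * |t| ^ 3) := by
        rw [abs_mul, abs_of_nonneg (by linarith : (0:ℝ) ≤ w - 1)]
        gcongr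
        linarith
      have h4 : |t ^ 3 / 2| ≤ |t| ^ 3 := by
        rw [abs_div, abs_pow, abs_of_pos (by norm_num : (0:ℝ) < 2)]
        have : 0 ≤ |t| ^ 3 := by positivity
        linarith
      have h5 : |t * R| ≤ |t| ^ 3 := by
        rw [abs_mul]
        calc |t| * |R| ≤ 1 / 2 * (2 * |t| ^ 3) := by gcongr
          _ = _ := by ring
      have h6 := abs_sub ((w - 1) * R + t ^ 3 / 2) (t * R)
      have h7 := abs_add_le ((w - 1) * R) (t ^ 3 / 2)
      have h8 : 0 ≤ |t| ^ 3 := by positivity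
      linarith
    rw [abs_mul, abs_of_pos hμ]
    calc μ * |(w - 1) * R + t ^ 3 / 2 - t * R| ≤ μ * (2 * (w + 1) * (27 * ε ^ 6)) := by
          gcongr
          exact h1.trans (by gcongr)
      _ = 54 * (w + 1) * ε * (μ * ε ^ 5) := by ring
      _ = _ := by rw [hμε, mul_one]
  have hL2 : |L / 2| ≤ 3 * ε := by
    rw [abs_div, abs_of_pos (by norm_num : (0:ℝ) < 2)]
    have : δ ≤ ε := by rw [hδε]; nlinarith
    linarith
  have hρ : 1 / (12 * (m:ℝ)) ≤ ε := by
    have h1 : μ / 2 ≤ m := by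
      rw [hmt, div_eq_mul_inv]
      apply mul_le_mul_of_nonneg_left _ hμ.le
      have := (abs_le.1 ht2).1
      linarith
    have h2 : 1 / μ ≤ ε := by
      have : 1 / μ = ε ^ 5 := by
        rw [div_eq_iff hμ.ne']
        linarith
      rw [this]
      calc ε ^ 5 ≤ ε ^ 1 := pow_le_pow_of_le_one hε.le (by linarith) (by norm_num)
        _ = ε := pow_one _
    calc 1 / (12 * (m:ℝ)) ≤ 1 / μ := by
          apply one_div_le_one_div_of_le hμ
          linarith
      _ ≤ ε := h2
  have hρ0 : 0 ≤ 1 / (12 * (m:ℝ)) := by positivity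
  have hεw : ε ≤ (w + 1) * ε := le_mul_of_one_le_left hε.le (by linarith)
  rw [hlogd, hx]
  rw [abs_le] at hE hL2 ⊢
  rw [h2pm] at hs1 hs2
  set U := (w + 1) * ε with hU
  have hE1 := hE.1
  have hE2 := hE.2
  have e1 : 54 * (w + 1) * ε = 54 * U := by rw [hU]; ring
  have e2 : 60 * (w + 1) * ε = 60 * U := by rw [hU]; ring
  rw [e1] at hE1 hE2
  rw [e2]
  constructor
  · linarith [hL2.2, hs2]
  · linarith [hL2.1, hs1]

end Pool.Agent.Y349.OC
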